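import Pool.Agent.J6H84.LM.Stm

/-!
# Module LM-COR: the determinants of the linear forms of a variational set are nonzero
-/

set_option autoImplicit false

namespace Pool.Agent.J6H1.LM

open Finset Pool.Agent.H430R2.PermCubes Pool.Agent.J6H84.LM

theorem main : Pool.Agent.J6H84.LM.S_Cor := by
  intro K _ _ m k C hC φ hl
  choose a ha using hl
  refine ⟨a, fun f hf hdet => ?_⟩
  classical
  obtain ⟨v, hv, hv0⟩ := Matrix.exists_mulVec_eq_zero_iff.2 hdet
  have h1 : ∀ l, ∑ i, a (f l) i * v i = 0 := fun l => congrFun hv0 l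
  have h2 : φ.symm v = φ.symm 0 := by
    refine (hC f hf).1 ?_
    funext l
    refine ha (f l) _ _ ?_
    rw [Equiv.apply_symm_apply, Equiv.apply_symm_apply, h1 l]
    simp
  exact hv (φ.symm.injective h2)

end Pool.Agent.J6H1.LM
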